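import Pool.Agent.Helper28.OHS.Goals
import Pool.Agent.Helper65.OH.GEO
import Pool.Agent.Helper81.Sus2.DEC

/-!
# Project OHS, packet DSC: descriptions give configurations
-/

namespace Pool.Agent.Helper55.OHS

open Pool.Agent.Helper65.LinSpace Pool.Agent.Helper78.Mpc Pool.Agent.Helper28.Ram Finset Filter
open Pool.Agent.Helper65.OH (Prm OneHead Conf Par InBox co bz GoodQ Fns GEO_stmt STEP_stmt)
open Pool.Agent.Helper81.Sus2 (Decomp CodE)
open Pool.Agent.Helper28.OHS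

theorem num_nil : num [] = 1 := rfl

theorem num_lt {w : List Bool} {S : ℕ} (h : w.length ≤ S) : num w < 2 ^ (S + 1) := by
  rw [← capN_num h]
  exact capN_lt _ _

theorem dsc_start {D : ℕ} (A : OneHead D) (eA eN eW c₀ : ℕ) (w y : List Bool) (m : Prm)
    (e : Pool.Agent.Helper81.Sus2.Prm) (hP : Par A eA eN eW c₀ w y m)
    (hl : A.start.length ≤ m.S) : Rep m e 1 (A.conf w y 0) := by
  have hG : GEO_stmt := Pool.Agent.Helper65.OH.GEO
  have hκ : 2 ^ (m.κ - 1) < 2 ^ m.κ :=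
    Nat.pow_lt_pow_right (by norm_num) (by have := hP.pos_κ; omega)
  obtain ⟨h1, h2, h3⟩ := hG.code m (capN m.S m.st) (fun _ => 2 ^ (m.κ - 1)) (capN_lt _ _)
    fun _ _ => hκ
  have hcs : cs m 1 = m.mk' (capN m.S m.st) (fun _ => 2 ^ (m.κ - 1)) := rfl
  refine ⟨one_ne_zero, ⟨?_, ?_, hl, ?_⟩, ?_⟩
  · rw [hcs]
    exact h1
  · rw [hcs, h2, hP.h_st, capN_num hl]
    rfl
  · intro k
    rw [hcs, h3 k (by rw [hP.h_D]; exact k.2)]
    show ((2 ^ (m.κ - 1) : ℕ) : ℤ) = 0 + 2 ^ (m.κ - 1)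
    push_cast
    ring
  · intro p _
    show capN m.S 1 = capN m.S (num [])
    rw [num_nil]

theorem dsc_short (hC : CEL_stmt) {D : ℕ} (A : OneHead D) (E : Decomp) (eA eN eW c₀ : ℕ)
    (w y : List Bool) (m : Prm) (e : Pool.Agent.Helper81.Sus2.Prm)
    (hP : Par A eA eN eW c₀ w y m) (hE : CodE E e) (hx : e.x = num w) (hy : e.y = num y)
    (b t : ℕ) (hb : m.κ = b + 1) (hq : (A.conf w y t).q.length ≤ m.S)
    (hbox : Box b (A.conf w y t).h) (hS : Short A E w y b e.Z e.z t) :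
    ∃ d, 2 ≤ d ∧ d < nz m e ∧ Rep m e d (A.conf w y t) := by
  have hG : GEO_stmt := Pool.Agent.Helper65.OH.GEO
  obtain ⟨D₀, hD₀, hsay⟩ := hS
  have hκ1 : m.κ - 1 = b := by omega
  have h2b : (2 : ℤ) ^ (b + 1) = 2 * 2 ^ b := by ring
  -- the coordinates of the head
  have hco : ∀ k (hk : k < D), ((co m.κ (A.conf w y t).h k : ℕ) : ℤ) =
      (A.conf w y t).h ⟨k, hk⟩ + 2 ^ (m.κ - 1) := by
    intro k hk
    unfold co
    rw [dif_pos hk, hκ1]
    have := (hbox ⟨k, hk⟩).1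
    rw [Int.toNat_of_nonneg (by linarith)]
  have hcolt : ∀ k < m.D, co m.κ (A.conf w y t).h k < 2 ^ m.κ := by
    intro k hk
    have hk' : k < D := by rw [← hP.h_D]; exact hk
    have h1 := hco k hk'
    have h2 := (hbox ⟨k, hk'⟩).2
    have h3 : ((co m.κ (A.conf w y t).h k : ℕ) : ℤ) < ((2 ^ m.κ : ℕ) : ℤ) := by
      rw [h1, hκ1, hb]
      push_cast
      rw [h2b]
      linarith
    exact_mod_cast h3
  obtain ⟨g1, g2, g3⟩ := hG.code m (num (A.conf w y t).q) (co m.κ (A.conf w y t).h)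
    (num_lt hq) hcolt
  set q : ℕ := m.mk' (num (A.conf w y t).q) (co m.κ (A.conf w y t).h) with hqdef
  have hpos : 0 < 2 ^ m.sg := by positivity
  have hN := num_lt hD₀
  have hNpos := num_pos D₀
  have hd2 : 2 + (q + 2 ^ m.sg * num D₀) - 2 = q + 2 ^ m.sg * num D₀ := by omega
  have hmod : (2 + (q + 2 ^ m.sg * num D₀) - 2) % 2 ^ m.sg = q := by
    rw [hd2, Nat.add_mul_mod_self_left, Nat.mod_eq_of_lt g1]
  have hdiv : (2 + (q + 2 ^ m.sg * num D₀) - 2) / 2 ^ m.sg = num D₀ := by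
    rw [hd2, Nat.add_mul_div_left _ _ hpos, Nat.div_eq_of_lt g1, zero_add]
  have hge : 1 ≤ 2 ^ m.sg * num D₀ := Nat.one_le_iff_ne_zero.2 (by positivity)
  have hne1 : 2 + (q + 2 ^ m.sg * num D₀) ≠ 1 := by omega
  have hcs : cs m (2 + (q + 2 ^ m.sg * num D₀)) = q := by
    unfold cs
    rw [eq01_ne hne1, ifz_zero, hmod]
  refine ⟨2 + (q + 2 ^ m.sg * num D₀), by omega, ?_, ?_, ⟨?_, ?_, hq, ?_⟩, ?_⟩
  · unfold nz
    have h1 : q + 2 ^ m.sg * num D₀ < 2 ^ m.sg * 2 ^ (e.z + 1) := by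
      calc q + 2 ^ m.sg * num D₀ < 2 ^ m.sg + 2 ^ m.sg * num D₀ := by omega
        _ = 2 ^ m.sg * (num D₀ + 1) := by ring
        _ ≤ 2 ^ m.sg * 2 ^ (e.z + 1) := Nat.mul_le_mul_left _ hN
    omega
  · omega
  · rw [hcs]
    exact g1
  · rw [hcs]
    exact g2
  · intro k
    rw [hcs, g3 k (by rw [hP.h_D]; exact k.2)]
    exact hco k k.2
  · intro p hp
    have hbp : Box b p := by
      intro k
      have h1 := hp k
      rw [hκ1, hb, h2b] at h1
      constructor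
      · linarith [h1.1]
      · linarith [h1.2]
    have h1 := (Pool.Agent.Helper81.Sus2.dec E w y e hE hx hy D₀ (cellW p)
      ((A.conf w y t).M p)).1 (hsay p hbp)
    unfold cn
    rw [eq01_ne hne1, ifz_zero, hdiv, hP.h_D, hC.name m.κ p hP.pos_κ hp, h1]

/-- Packet DSC. -/
theorem dsc (hC : CEL_stmt) : DSC_stmt where
  start := dsc_start
  short := dsc_short hC

end Pool.Agent.Helper55.OHS
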